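import Pool.Agent.P.MP_aabf10_an.Dom3

/-!
The local KdV fields span the tangent spaces of the isospectral manifold exactly when an explicit
series in the gap lengths diverges along every infinite set of open lacunae.
-/

namespace Pool.Agent.Results.MP_aabf10_an.GapCriterion

open Pool.Agent.P.MP_aabf10_an

theorem result (q : ℝ → ℝ) (hq : Cinf q) :
    (∃ lam, IsEnum q lam) ∧ (∀ p ∈ Iso q, ∃ G, IsLenard p G) ∧
      ∀ lam, IsEnum q lam → ∀ p ∈ Iso q, ∀ G, IsLenard p G →
        (SpansL2 (Iso q) p G ↔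
          ∀ N : Set ℕ, N.Infinite → (∀ n ∈ N, lam (2 * n - 1) < lam (2 * n)) →
            ¬Summable fun n : N =>
              (((n : ℕ) : ℝ) / ((lam (2 * n) - lam (2 * n - 1)) * gapProd N n)) ^ 2) :=
  ⟨exists_enum hq, fun _ hp => ⟨_, isLenard_gradH hp.1⟩,
    fun _ hl _ hp _ hG => spansL2_iff_series hq hl hp hG⟩

end Pool.Agent.Results.MP_aabf10_an.GapCriterion
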