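import Pool.Agent.P.MP_aabf10_an.Dom3

/-!
Polynomials span the weighted sequence space on the points `lam (2 n)` exactly when an explicit
series in the weights diverges along every infinite set of open lacunae.
-/

namespace Pool.Agent.Results.MP_aabf10_an.PolyCriterion

open Pool.Agent.P.MP_aabf10_an

theorem result (q : ℝ → ℝ) (hq : Cinf q) :
    (∃ lam, IsEnum q lam) ∧ ∀ lam, IsEnum q lam → ∀ (k : ℕ) (s : ℝ), 0 < s → ∀ W : ℕ → ℝ,
      (∀ n, W n = (n : ℝ) ^ k * (lam (2 * n) - lam (2 * n - 1)) ^ s) →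
      ((∀ f : ℕ → ℝ, Summable (fun n => W (n + 1) * f (n + 1) ^ 2) →
        ∀ ε > 0, ∃ p : Polynomial ℝ,
          Summable (fun n => W (n + 1) * p.eval (lam (2 * (n + 1))) ^ 2) ∧
          ∑' n, W (n + 1) * (f (n + 1) - p.eval (lam (2 * (n + 1)))) ^ 2 < ε) ↔
        ∀ N : Set ℕ, N.Infinite → (∀ n ∈ N, lam (2 * n - 1) < lam (2 * n)) →
          ¬Summable fun n : N => ((n : ℕ) : ℝ) ^ 4 / (W n * gapProd N n ^ 2)) :=
  ⟨exists_enum hq, fun _ hl k _ hs _ hW => polySpans_iff_series hq hl k hs hW⟩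

end Pool.Agent.Results.MP_aabf10_an.PolyCriterion
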