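import Pool.Agent.P.MP_aabf10_an.SupB

/-!
The local KdV fields span every tangent space of the isospectral manifold `M` in the uniform norm
exactly when `M` is a quasi-analytic class, and this is decided by the gap lengths.
-/

namespace Pool.Agent.Results.MP_aabf10_an.QuasiAnalyticTorus

open Pool.Agent.P.MP_aabf10_an

theorem result (q : ℝ → ℝ) (hq : Cinf q) :
    (∃ lam, IsEnum q lam) ∧ (∀ p ∈ Iso q, ∃ G, IsLenard p G) ∧ ∀ lam, IsEnum q lam →
      ((∀ p ∈ Iso q, ∀ G, IsLenard p G → SpansSup (Iso q) p G) ↔ QuasiAn (Iso q)) ∧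
      (QuasiAn (Iso q) ↔
        ∀ f, InClassSup (fun n => lam (2 * n) - lam (2 * n - 1)) f → Flat f → f = 0) :=
  ⟨exists_enum hq, fun _ hp => ⟨_, isLenard_gradH hp.1⟩, fun _ hl => sup_main hq hl⟩

end Pool.Agent.Results.MP_aabf10_an.QuasiAnalyticTorus
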